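import Pool.Agent.Helper97.RE.Defs

/-!
# Paths as functions: windows, counting, clean paths
-/

set_option autoImplicit false

namespace Pool.Agent.Helper97.RE

open Finset

section basic

variable {W : Type*}

/-- the window of length `j` at offset `o` -/
def win {n : ℕ} (p : Fin (n + 1) → W) (o j : ℕ) (h : o + j ≤ n) : Fin (j + 1) → W :=
  fun i => p ⟨o + i, by omega⟩

theorem win_apply {n : ℕ} (p : Fin (n + 1) → W) (o j : ℕ) (h : o + j ≤ n) (i : Fin (j + 1)) :
    win p o j h i = p ⟨o + i, by omega⟩ := rfl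

theorem win_zero {n : ℕ} (p : Fin (n + 1) → W) (o j : ℕ) (h : o + j ≤ n) :
    win p o j h 0 = p ⟨o, by omega⟩ := rfl

theorem win_last {n : ℕ} (p : Fin (n + 1) → W) (o j : ℕ) (h : o + j ≤ n) :
    win p o j h (Fin.last j) = p ⟨o + j, by omega⟩ := rfl

theorem win_win {n : ℕ} (p : Fin (n + 1) → W) (o j : ℕ) (h : o + j ≤ n) (o' j' : ℕ)
    (h' : o' + j' ≤ j) : win (win p o j h) o' j' h' = win p (o + o') j' (by omega) := by
  funext i
  simp only [win]
  congr 1
  ext
  simp only
  omega

theorem win_self {n : ℕ} (p : Fin (n + 1) → W) (h : 0 + n ≤ n) : win p 0 n h = p := by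
  funext i
  simp only [win]
  congr 1
  ext
  simp

theorem init_eq_win {n : ℕ} (p : Fin (n + 1 + 1) → W) :
    (Fin.init p : Fin (n + 1) → W) = win p 0 n (by omega) := by
  funext i
  simp only [win, Fin.init]
  congr 1
  ext
  simp

theorem tail_eq_win {n : ℕ} (p : Fin (n + 1 + 1) → W) :
    (Fin.tail p : Fin (n + 1) → W) = win p 1 n (by omega) := by
  funext i
  simp only [win, Fin.tail]
  congr 1
  ext
  simp
  omega

theorem IsPath.win {G : SimpleGraph W} {n : ℕ} {p : Fin (n + 1) → W} (hp : IsPath G p)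
    (o j : ℕ) (h : o + j ≤ n) : IsPath G (win p o j h) := by
  refine ⟨?_, ?_⟩
  · intro a b hab
    have h1 := hp.1 hab
    simp only [Fin.mk.injEq] at h1
    exact Fin.ext (by omega)
  · intro i
    have h1 := hp.2 ⟨o + i, by omega⟩
    exact h1

theorem IsPath.adj {G : SimpleGraph W} {n : ℕ} {p : Fin (n + 1) → W} (hp : IsPath G p)
    (i : ℕ) (h : i < n) : G.Adj (p ⟨i, by omega⟩) (p ⟨i + 1, by omega⟩) :=
  hp.2 ⟨i, h⟩

theorem IsPath.init {G : SimpleGraph W} {n : ℕ} {p : Fin (n + 1 + 1) → W} (hp : IsPath G p) :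
    IsPath G (Fin.init p : Fin (n + 1) → W) := by
  rw [init_eq_win]; exact hp.win _ _ _

theorem IsPath.tail {G : SimpleGraph W} {n : ℕ} {p : Fin (n + 1 + 1) → W} (hp : IsPath G p) :
    IsPath G (Fin.tail p : Fin (n + 1) → W) := by
  rw [tail_eq_win]; exact hp.win _ _ _

theorem IsPath.snoc {G : SimpleGraph W} {n : ℕ} {q : Fin (n + 1) → W} (hq : IsPath G q)
    {v : W} (h1 : G.Adj (q (Fin.last n)) v) (h2 : ∀ i, q i ≠ v) :
    IsPath G (Fin.snoc q v : Fin (n + 1 + 1) → W) := by
  refine ⟨?_, ?_⟩
  · intro a b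
    refine Fin.lastCases ?_ (fun a => ?_) a <;> refine Fin.lastCases ?_ (fun b => ?_) b
    · intro _; rfl
    · intro h
      simp only [Fin.snoc_last, Fin.snoc_castSucc] at h
      exact absurd h.symm (h2 b)
    · intro h
      simp only [Fin.snoc_last, Fin.snoc_castSucc] at h
      exact absurd h (h2 a)
    · intro h
      simp only [Fin.snoc_castSucc] at h
      rw [hq.1 h]
  · intro i
    refine Fin.lastCases ?_ (fun i => ?_) i
    · rw [Fin.snoc_castSucc, Fin.succ_last, Fin.snoc_last]
      exact h1
    · rw [Fin.snoc_castSucc, Fin.succ_castSucc, Fin.snoc_castSucc]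
      exact hq.2 i

/-- the trivial path -/
theorem isPath_zero (G : SimpleGraph W) (p : Fin (0 + 1) → W) : IsPath G p :=
  ⟨fun a b _ => Fin.ext (by omega), fun i => i.elim0⟩

/-- concatenation -/
def app {i j : ℕ} (p : Fin (i + 1) → W) (q : Fin (j + 1) → W) : Fin (i + j + 1) → W :=
  fun u => if h : (u : ℕ) ≤ i then p ⟨u, by omega⟩ else q ⟨u - i, by omega⟩

theorem app_zero {i j : ℕ} (p : Fin (i + 1) → W) (q : Fin (j + 1) → W) : app p q 0 = p 0 := by
  simp [app]

theorem app_last {i j : ℕ} (p : Fin (i + 1) → W) (q : Fin (j + 1) → W)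
    (h : p (Fin.last i) = q 0) : app p q (Fin.last (i + j)) = q (Fin.last j) := by
  unfold app
  by_cases hj : j = 0
  · subst hj
    simp only [Fin.val_last, Nat.add_zero, le_refl, dite_true]
    exact h
  · have : ¬ ((Fin.last (i + j) : Fin (i + j + 1)) : ℕ) ≤ i := by
      simp only [Fin.val_last]; omega
    rw [dif_neg this]
    congr 1
    ext
    simp

theorem IsPath.app {G : SimpleGraph W} {i j : ℕ} {p : Fin (i + 1) → W} {q : Fin (j + 1) → W}
    (hp : IsPath G p) (hq : IsPath G q) (h : p (Fin.last i) = q 0)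
    (hd : ∀ (u : Fin (i + 1)) (v : Fin (j + 1)), v ≠ 0 → p u ≠ q v) :
    IsPath G (app p q) := by
  refine ⟨?_, ?_⟩
  · intro a b hab
    unfold RE.app at hab
    by_cases ha : (a : ℕ) ≤ i <;> by_cases hb : (b : ℕ) ≤ i
    · rw [dif_pos ha, dif_pos hb] at hab
      have := hp.1 hab
      simp only [Fin.mk.injEq] at this
      exact Fin.ext this
    · rw [dif_pos ha, dif_neg hb] at hab
      refine absurd hab (hd _ _ ?_)
      intro h0
      have := congrArg Fin.val h0
      simp only [Fin.val_zero] at this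
      omega
    · rw [dif_neg ha, dif_pos hb] at hab
      refine absurd hab.symm (hd _ _ ?_)
      intro h0
      have := congrArg Fin.val h0
      simp only [Fin.val_zero] at this
      omega
    · rw [dif_neg ha, dif_neg hb] at hab
      have := hq.1 hab
      simp only [Fin.mk.injEq] at this
      exact Fin.ext (by omega)
  · intro u
    unfold RE.app
    have hcs : (u.castSucc : ℕ) = u := rfl
    have hsc : (u.succ : ℕ) = u + 1 := rfl
    have hu : (u : ℕ) < i + j := u.2
    by_cases h1 : (u : ℕ) + 1 ≤ i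
    · rw [dif_pos (by omega), dif_pos (by omega)]
      exact hp.adj u (by omega)
    · have h1' : ¬ ((u.succ : Fin (i + j + 1)) : ℕ) ≤ i := by rw [hsc]; exact h1
      rw [dif_neg h1']
      by_cases h2 : (u : ℕ) ≤ i
      · have h2' : ((u.castSucc : Fin (i + j + 1)) : ℕ) ≤ i := h2
        rw [dif_pos h2']
        have h3 : (u : ℕ) = i := by omega
        have e1 : p ⟨(u.castSucc : ℕ), by omega⟩ = q ⟨0, by omega⟩ := by
          rw [← show p (Fin.last i) = q ⟨0, by omega⟩ from h]
          congr 1
          ext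
          simp [h3]
        have e2 : q ⟨(u.succ : ℕ) - i, by omega⟩ = q ⟨0 + 1, by omega⟩ := by
          congr 1
          ext
          simp only [hsc]
          omega
        rw [e1, e2]
        exact hq.adj 0 (by omega)
      · have h2' : ¬ ((u.castSucc : Fin (i + j + 1)) : ℕ) ≤ i := h2
        rw [dif_neg h2']
        have e2 : q ⟨(u.succ : ℕ) - i, by omega⟩ = q ⟨((u.castSucc : ℕ) - i) + 1, by omega⟩ := by
          congr 1
          ext
          simp only [hsc, hcs]
          omega
        rw [e2]
        exact hq.adj _ (by omega)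

theorem app_inner {i j : ℕ} (p : Fin (i + 1) → W) (q : Fin (j + 1) → W) (Z : Set W)
    (h1 : ∀ u : Fin (i + 1), u ≠ 0 → p u ∉ Z)
    (h2 : ∀ v : Fin (j + 1), v ≠ 0 → v ≠ Fin.last j → q v ∉ Z) :
    ∀ u : Fin (i + j + 1), u ≠ 0 → u ≠ Fin.last (i + j) → app p q u ∉ Z := by
  intro u hu0 hul
  have hu0' : (u : ℕ) ≠ 0 := fun h => hu0 (Fin.ext h)
  have hul' : (u : ℕ) ≠ i + j := fun h => hul (Fin.ext h)
  unfold app
  by_cases hu : (u : ℕ) ≤ i
  · rw [dif_pos hu]
    apply h1
    intro h0
    exact hu0' (congrArg Fin.val h0)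
  · rw [dif_neg hu]
    apply h2
    · intro h0
      have := congrArg Fin.val h0
      simp only [Fin.val_zero] at this
      omega
    · intro h0
      have := congrArg Fin.val h0
      simp only [Fin.val_last] at this
      omega

/-- colours along a path -/
theorem IsPath.colour {G : SimpleGraph W} {c : W → Bool} (hc : ∀ a b, G.Adj a b → c a ≠ c b)
    {n : ℕ} {p : Fin (n + 1) → W} (hp : IsPath G p) (i : ℕ) (hi : i < n + 1) :
    (c (p ⟨i, hi⟩) = c (p 0)) ↔ i % 2 = 0 := by
  induction i with
  | zero => simp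
  | succ i ih =>
    have h1 := ih (by omega)
    have h2 := hc _ _ (hp.adj i (by omega))
    have h3 : c (p ⟨i + 1, hi⟩) = !(c (p ⟨i, by omega⟩)) := by
      cases hx : c (p ⟨i + 1, hi⟩) <;> cases hy : c (p ⟨i, by omega⟩) <;> simp_all
    rw [h3]
    constructor
    · intro h
      by_contra hcon
      have h4 : i % 2 = 0 := by omega
      rw [h1.2 h4] at h
      cases hx : c (p 0) <;> simp_all
    · intro h
      have h4 : ¬ i % 2 = 0 := by omega
      have h5 : ¬ c (p ⟨i, by omega⟩) = c (p 0) := fun h => h4 (h1.1 h)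
      cases hx : c (p 0) <;> cases hy : c (p ⟨i, by omega⟩) <;> simp_all

theorem Rich.mono {G : SimpleGraph W} {j R R' : ℕ} {x y : W} (h : Rich G j R x y)
    (hR : R' ≤ R) : Rich G j R' x y := fun Z hZ => h Z (hZ.trans hR)

end basic

section counting

variable {W : Type*} [Fintype W] [DecidableEq W]

/-- the finset of paths with `n` edges -/
noncomputable def PP (G : SimpleGraph W) (n : ℕ) : Finset (Fin (n + 1) → W) := by
  classical exact univ.filter (IsPath G)

@[simp] theorem mem_PP {G : SimpleGraph W} {n : ℕ} {p : Fin (n + 1) → W} :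
    p ∈ PP G n ↔ IsPath G p := by
  classical
  simp [PP]

open Classical in
theorem card_ext_last (G : SimpleGraph W) [DecidableRel G.Adj] (Δ : ℕ)
    (hΔ : ∀ w, G.degree w ≤ Δ) (n : ℕ) (S : Finset (Fin (n + 1) → W)) :
    #{p ∈ PP G (n + 1) | (Fin.init p : Fin (n + 1) → W) ∈ S} ≤ Δ * #S := by
  refine Finset.card_le_mul_card_image_of_maps_to (f := fun p : Fin (n + 1 + 1) → W => (Fin.init p : Fin (n + 1) → W))
    (fun p hp => (mem_filter.1 hp).2) Δ ?_
  intro q hq
  refine le_trans ?_ (hΔ (q (Fin.last n)))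
  rw [← SimpleGraph.card_neighborFinset_eq_degree]
  refine Finset.card_le_card_of_injOn (fun p => p (Fin.last (n + 1))) ?_ ?_
  · intro p hp
    simp only [coe_filter, mem_filter, mem_PP, Set.mem_ofPred_eq] at hp
    simp only [SimpleGraph.coe_neighborFinset, SimpleGraph.mem_neighborSet]
    rw [← hp.2]
    exact hp.1.1.2 (Fin.last n)
  · intro p hp p' hp' h
    simp only [coe_filter, mem_filter, mem_PP, Set.mem_ofPred_eq] at hp hp'
    rw [← Fin.snoc_init_self p, ← Fin.snoc_init_self p', hp.2, hp'.2]
    simp only at h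
    rw [h]

open Classical in
theorem card_ext_first (G : SimpleGraph W) [DecidableRel G.Adj] (Δ : ℕ)
    (hΔ : ∀ w, G.degree w ≤ Δ) (n : ℕ) (S : Finset (Fin (n + 1) → W)) :
    #{p ∈ PP G (n + 1) | (Fin.tail p : Fin (n + 1) → W) ∈ S} ≤ Δ * #S := by
  refine Finset.card_le_mul_card_image_of_maps_to (f := fun p : Fin (n + 1 + 1) → W => (Fin.tail p : Fin (n + 1) → W))
    (fun p hp => (mem_filter.1 hp).2) Δ ?_
  intro q hq
  refine le_trans ?_ (hΔ (q 0))
  rw [← SimpleGraph.card_neighborFinset_eq_degree]
  refine Finset.card_le_card_of_injOn (fun p => p 0) ?_ ?_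
  · intro p hp
    simp only [coe_filter, mem_filter, mem_PP, Set.mem_ofPred_eq] at hp
    simp only [SimpleGraph.coe_neighborFinset, SimpleGraph.mem_neighborSet]
    rw [← hp.2]
    exact (hp.1.1.2 0).symm
  · intro p hp p' hp' h
    simp only [coe_filter, mem_filter, mem_PP, Set.mem_ofPred_eq] at hp hp'
    rw [← Fin.cons_self_tail p, ← Fin.cons_self_tail p', hp.2, hp'.2]
    simp only at h
    rw [h]

open Classical in
/-- number of paths with a window in a given set -/
theorem card_window (G : SimpleGraph W) [DecidableRel G.Adj] (Δ : ℕ)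
    (hΔ : ∀ w, G.degree w ≤ Δ) (j : ℕ) (S : Finset (Fin (j + 1) → W)) (n : ℕ) :
    ∀ (o : ℕ) (h : o + j ≤ n), #{p ∈ PP G n | win p o j h ∈ S} ≤ Δ ^ (n - j) * #S := by
  induction n with
  | zero =>
    intro o h
    obtain rfl : j = 0 := by omega
    obtain rfl : o = 0 := by omega
    simp only [Nat.sub_self, pow_zero, one_mul]
    refine card_le_card ?_
    intro p hp
    rw [mem_filter, win_self] at hp
    exact hp.2
  | succ n ih =>
    intro o h
    by_cases h1 : o + j ≤ n
    · have h2 := card_ext_last G Δ hΔ n ({p ∈ PP G n | win p o j h1 ∈ S})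
      have h3 := ih o h1
      have h4 : #{p ∈ PP G (n + 1) | win p o j h ∈ S} ≤
          #{p ∈ PP G (n + 1) | (Fin.init p : Fin (n + 1) → W) ∈
            ({p ∈ PP G n | win p o j h1 ∈ S} : Finset (Fin (n + 1) → W))} := by
        refine card_le_card ?_
        intro p hp
        rw [mem_filter] at hp ⊢
        refine ⟨hp.1, ?_⟩
        rw [mem_filter]
        refine ⟨mem_PP.2 (mem_PP.1 hp.1).init, ?_⟩
        rw [init_eq_win, win_win]
        convert hp.2 using 2
        omega
      calc _ ≤ _ := h4
        _ ≤ _ := h2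
        _ ≤ Δ * (Δ ^ (n - j) * #S) := Nat.mul_le_mul_left _ h3
        _ = Δ ^ (n + 1 - j) * #S := by
          rw [show n + 1 - j = (n - j) + 1 by omega, pow_succ]
          ring
    · by_cases h0 : o = 0
      · subst h0
        obtain rfl : j = n + 1 := by omega
        simp only [Nat.sub_self, pow_zero, one_mul]
        refine card_le_card ?_
        intro p hp
        rw [mem_filter, win_self] at hp
        exact hp.2
      · have h1' : (o - 1) + j ≤ n := by omega
        have h2 := card_ext_first G Δ hΔ n ({p ∈ PP G n | win p (o - 1) j h1' ∈ S})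
        have h3 := ih (o - 1) h1'
        have h4 : #{p ∈ PP G (n + 1) | win p o j h ∈ S} ≤
            #{p ∈ PP G (n + 1) | (Fin.tail p : Fin (n + 1) → W) ∈
              ({p ∈ PP G n | win p (o - 1) j h1' ∈ S} : Finset (Fin (n + 1) → W))} := by
          refine card_le_card ?_
          intro p hp
          rw [mem_filter] at hp ⊢
          refine ⟨hp.1, ?_⟩
          rw [mem_filter]
          refine ⟨mem_PP.2 (mem_PP.1 hp.1).tail, ?_⟩
          rw [tail_eq_win, win_win]
          convert hp.2 using 2
          omega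
        calc _ ≤ _ := h4
          _ ≤ _ := h2
          _ ≤ Δ * (Δ ^ (n - j) * #S) := Nat.mul_le_mul_left _ h3
          _ = Δ ^ (n + 1 - j) * #S := by
            rw [show n + 1 - j = (n - j) + 1 by omega, pow_succ]
            ring

open Classical in
/-- number of paths with a given last vertex -/
theorem card_paths_last (G : SimpleGraph W) [DecidableRel G.Adj] (Δ : ℕ)
    (hΔ : ∀ w, G.degree w ≤ Δ) (n : ℕ) (y : W) :
    #{p ∈ PP G n | p (Fin.last n) = y} ≤ Δ ^ n := by
  have h := card_window G Δ hΔ 0 {fun _ => y} n n (by omega)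
  simp only [Nat.sub_zero, card_singleton, mul_one] at h
  refine le_trans (card_le_card ?_) h
  intro p hp
  rw [mem_filter] at hp ⊢
  refine ⟨hp.1, ?_⟩
  rw [mem_singleton]
  funext i
  obtain rfl : i = 0 := Fin.ext (by omega)
  rw [win_zero]
  exact hp.2

open Classical in
theorem card_PP_lower (G : SimpleGraph W) [DecidableRel G.Adj] (d : ℕ) (hd : ∀ w, d ≤ G.degree w) (h : ℕ) :
    ∀ n, n ≤ h → Fintype.card W * (d - h) ^ n ≤ #(PP G n) := by
  intro n
  induction n with
  | zero =>
    intro _
    rw [pow_zero, mul_one]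
    rw [← Finset.card_univ]
    refine Finset.card_le_card_of_injOn (fun w => fun _ => w) ?_ ?_
    · intro w _
      exact mem_coe.2 (mem_PP.2 (isPath_zero G _))
    · intro a _ b _ hab
      exact congrFun hab 0
  | succ n ih =>
    intro hn
    have h1 := ih (by omega)
    have h2 : (d - h) * #(PP G n) ≤ #(PP G (n + 1)) := by
      refine Finset.mul_card_image_le_card_of_maps_to
        (f := fun p : Fin (n + 1 + 1) → W => (Fin.init p : Fin (n + 1) → W)) ?_ (d - h) ?_
      · intro p hp
        exact mem_PP.2 (mem_PP.1 hp).init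
      · intro q hq
        have h3 : d - h ≤ #(G.neighborFinset (q (Fin.last n)) \ univ.image q) := by
          have h4 := Finset.le_card_sdiff (univ.image q) (G.neighborFinset (q (Fin.last n)))
          have h5 : #(univ.image q) ≤ n + 1 := by
            refine card_image_le.trans ?_
            simp
          have h6 := hd (q (Fin.last n))
          rw [← SimpleGraph.card_neighborFinset_eq_degree] at h6
          omega
        refine h3.trans ?_
        refine Finset.card_le_card_of_injOn
          (fun v => (Fin.snoc q v : Fin (n + 1 + 1) → W)) ?_ ?_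
        · intro v hv
          rw [mem_coe, mem_sdiff, SimpleGraph.mem_neighborFinset] at hv
          rw [mem_coe, mem_filter]
          refine ⟨mem_PP.2 ((mem_PP.1 hq).snoc hv.1 ?_), ?_⟩
          · intro i hi
            exact hv.2 (mem_image.2 ⟨i, mem_univ _, hi⟩)
          · simp
        · intro v _ v' _ hvv
          have := congrFun hvv (Fin.last (n + 1))
          simpa using this
    calc Fintype.card W * (d - h) ^ (n + 1) = (d - h) * (Fintype.card W * (d - h) ^ n) := by ring
      _ ≤ (d - h) * #(PP G n) := Nat.mul_le_mul_left _ h1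
      _ ≤ _ := h2

end counting

section clean

variable {W : Type*}

/-- no window of length in `[2, L]` has rich ends -/
def Clean (G : SimpleGraph W) (L : ℕ) (R : ℕ → ℕ) {n : ℕ} (p : Fin (n + 1) → W) : Prop :=
  ∀ (o j : ℕ) (h : o + j ≤ n), 2 ≤ j → j ≤ L →
    ¬ Rich G j (R j) (p ⟨o, by omega⟩) (p ⟨o + j, by omega⟩)

theorem Clean.win {G : SimpleGraph W} {L : ℕ} {R : ℕ → ℕ} {n : ℕ} {p : Fin (n + 1) → W}
    (hp : Clean G L R p) (o j : ℕ) (h : o + j ≤ n) : Clean G L R (win p o j h) := by
  intro o' j' h' h2 hL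
  have := hp (o + o') j' (by omega) h2 hL
  simp only [RE.win]
  convert this using 3
  ext
  simp only
  omega

variable [Fintype W] [DecidableEq W]

/-- number of clean paths of length `n` between `x` and `y` -/
noncomputable def cnt (G : SimpleGraph W) (L : ℕ) (R : ℕ → ℕ) (n : ℕ) (x y : W) : ℕ := by
  classical
  exact #{p ∈ PP G n | Clean G L R p ∧ p 0 = x ∧ p (Fin.last n) = y}

open Classical in
theorem cnt_split (G : SimpleGraph W) (L : ℕ) (R : ℕ → ℕ) (n : ℕ) (x y z : W) (i : ℕ)
    (hi : i ≤ n) :
    #{p ∈ PP G n | Clean G L R p ∧ p 0 = x ∧ p (Fin.last n) = y ∧ p ⟨i, by omega⟩ = z} ≤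
      cnt G L R i x z * cnt G L R (n - i) z y := by
  unfold cnt
  rw [← card_product]
  refine Finset.card_le_card_of_injOn
    (fun p => (win p 0 i (by omega), win p i (n - i) (by omega))) ?_ ?_
  · intro p hp
    rw [mem_coe, mem_filter, mem_PP] at hp
    obtain ⟨h1, h2, h3, h4, h5⟩ := hp
    rw [mem_coe, mem_product, mem_filter, mem_filter]
    refine ⟨⟨mem_PP.2 (h1.win 0 i (by omega)), h2.win 0 i (by omega), h3, ?_⟩,
      ⟨mem_PP.2 (h1.win i (n - i) (by omega)), h2.win i (n - i) (by omega), h5, ?_⟩⟩
    · simp only [win_last, Nat.zero_add]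
      exact h5
    · simp only [win_last]
      rw [← h4]
      congr 1
      ext
      simp only [Fin.val_last]
      omega
  · intro p _ p' _ h
    rw [Prod.mk.injEq] at h
    funext u
    by_cases hu : (u : ℕ) ≤ i
    · have := congrFun h.1 ⟨u, by omega⟩
      simp only [win_apply, Nat.zero_add] at this
      exact this
    · have := congrFun h.2 ⟨u - i, by omega⟩
      simp only [win_apply] at this
      have e : (⟨i + (u - i), by omega⟩ : Fin (n + 1)) = u := Fin.ext (by simp only; omega)
      rw [e] at this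
      exact this

/-- the bound for `cnt` -/
def Cb (R : ℕ → ℕ) : ℕ → ℕ
  | 0 => 1
  | (n + 1) => Cb R n + R (n + 1) * (n + 1) * (Cb R n * Cb R n)

theorem Cb_le_succ (R : ℕ → ℕ) (n : ℕ) : Cb R n ≤ Cb R (n + 1) := by
  simp only [Cb]
  omega

theorem Cb_mono (R : ℕ → ℕ) : Monotone (Cb R) := monotone_nat_of_le_succ (Cb_le_succ R)

theorem Cb_pos (R : ℕ → ℕ) (n : ℕ) : 1 ≤ Cb R n :=
  le_trans (le_refl 1) (Cb_mono R (Nat.zero_le n))

theorem cnt_le (G : SimpleGraph W) (L : ℕ) (R : ℕ → ℕ) (n : ℕ) (hn : n ≤ L) :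
    ∀ x y, cnt G L R n x y ≤ Cb R n := by
  classical
  induction n using Nat.strong_induction_on with
  | _ n ih =>
    intro x y
    by_cases h1 : n ≤ 1
    · refine le_trans ?_ (Cb_pos R n)
      unfold cnt
      refine Finset.card_le_one.2 ?_
      intro p hp q hq
      rw [mem_filter] at hp hq
      funext u
      have hu : u = 0 ∨ u = Fin.last n := by
        have := u.2
        by_cases h : (u : ℕ) = 0
        · left; exact Fin.ext h
        · right; apply Fin.ext; rw [Fin.val_last]; omega
      rcases hu with rfl | rfl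
      · rw [hp.2.2.1, hq.2.2.1]
      · rw [hp.2.2.2, hq.2.2.2]
    · obtain ⟨n, rfl⟩ : ∃ m, n = m + 1 := ⟨n - 1, by omega⟩
      by_cases h0 : cnt G L R (n + 1) x y = 0
      · rw [h0]; exact Nat.zero_le _
      · have h0' := h0
        unfold cnt at h0'
        rw [Finset.card_eq_zero, ← ne_eq, ← Finset.nonempty_iff_ne_empty] at h0'
        obtain ⟨p0, hp0⟩ := h0'
        rw [mem_filter, mem_PP] at hp0
        have hr := hp0.2.1 0 (n + 1) (by omega) (by omega) hn
        have e1 : p0 ⟨0, by omega⟩ = x := hp0.2.2.1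
        have e2 : p0 ⟨0 + (n + 1), by omega⟩ = y := by
          rw [← hp0.2.2.2]
          congr 1
          ext
          simp
        rw [e1, e2] at hr
        unfold Rich at hr
        push Not at hr
        obtain ⟨Z, hZ, hZ2⟩ := hr
        have key : cnt G L R (n + 1) x y ≤ ∑ z ∈ Z, ∑ i ∈ (range n),
            (cnt G L R (i + 1) x z * cnt G L R (n + 1 - (i + 1)) z y) := by
          have hsub : ({p ∈ PP G (n + 1) | Clean G L R p ∧ p 0 = x ∧ p (Fin.last (n + 1)) = y} :
              Finset (Fin (n + 1 + 1) → W)) ⊆ Z.biUnion (fun z => (range n).attach.biUnion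
              (fun i => {p ∈ PP G (n + 1) | Clean G L R p ∧ p 0 = x ∧ p (Fin.last (n + 1)) = y ∧
                p ⟨i.1 + 1, by have := mem_range.1 i.2; omega⟩ = z})) := by
            intro p hp
            rw [mem_filter, mem_PP] at hp
            obtain ⟨h1, h2, h3, h4⟩ := hp
            obtain ⟨i, hi1, hi2, hi3⟩ := hZ2 p h1 h3 h4
            have hi1' : (i : ℕ) ≠ 0 := fun h => hi1 (Fin.ext h)
            have hi2' : (i : ℕ) ≠ n + 1 := fun h => hi2 (Fin.ext h)
            have hi := i.2
            rw [mem_biUnion]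
            refine ⟨p i, hi3, ?_⟩
            rw [mem_biUnion]
            refine ⟨⟨i - 1, mem_range.2 (by omega)⟩, mem_attach _ _, ?_⟩
            rw [mem_filter, mem_PP]
            refine ⟨h1, h2, h3, h4, ?_⟩
            congr 1
            ext
            simp only
            omega
          have hcard := card_le_card hsub
          unfold cnt at hcard ⊢
          refine hcard.trans ?_
          refine card_biUnion_le.trans ?_
          refine sum_le_sum ?_
          intro z _
          refine card_biUnion_le.trans ?_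
          rw [← Finset.sum_attach (range n)]
          refine sum_le_sum ?_
          intro i _
          have := cnt_split G L R (n + 1) x y z (i.1 + 1) (by have := mem_range.1 i.2; omega)
          unfold cnt at this
          exact this
        refine key.trans ?_
        have hb : ∀ z ∈ Z, ∑ i ∈ (range n),
            (cnt G L R (i + 1) x z * cnt G L R (n + 1 - (i + 1)) z y) ≤
            (n + 1) * (Cb R n * Cb R n) := by
          intro z _
          refine (sum_le_card_nsmul _ _ (Cb R n * Cb R n) ?_).trans ?_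
          · intro i hi
            have hi' := mem_range.1 hi
            refine Nat.mul_le_mul ?_ ?_
            · exact (ih (i + 1) (by omega) (by omega) x z).trans (Cb_mono R (by omega))
            · exact (ih _ (by omega) (by omega) z y).trans (Cb_mono R (by omega))
          · rw [card_range, smul_eq_mul]
            exact Nat.mul_le_mul_right _ (by omega)
        refine (sum_le_card_nsmul _ _ _ hb).trans ?_
        rw [smul_eq_mul]
        simp only [Cb]
        have := Nat.mul_le_mul_right ((n + 1) * (Cb R n * Cb R n)) hZ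
        calc _ ≤ _ := this
          _ = R (n + 1) * (n + 1) * (Cb R n * Cb R n) := by ring
          _ ≤ _ := Nat.le_add_left _ _

open Classical in
/-- number of non-clean paths -/
theorem unclean_count (G : SimpleGraph W) [DecidableRel G.Adj] (L K d E : ℕ) (R : ℕ → ℕ) (hK : 1 ≤ K)
    (hΔ : ∀ w, G.degree w ≤ K * d)
    (hb : ∀ j, 2 ≤ j → j ≤ L →
      E * #{p ∈ PP G j | Rich G j (R j) (p 0) (p (Fin.last j))} ≤ Fintype.card W * d ^ j)
    (n : ℕ) :
    E * #{p ∈ PP G n | ¬ Clean G L R p} ≤
      (L + 1) * (n + 1) * K ^ n * (Fintype.card W * d ^ n) := by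
  have hsub : ({p ∈ PP G n | ¬ Clean G L R p} : Finset (Fin (n + 1) → W)) ⊆
      (range (L + 1)).biUnion (fun j => (range (n + 1)).biUnion (fun o =>
        if h : o + j ≤ n ∧ 2 ≤ j ∧ j ≤ L then
          {p ∈ PP G n | win p o j h.1 ∈
            ({p ∈ PP G j | Rich G j (R j) (p 0) (p (Fin.last j))} : Finset (Fin (j + 1) → W))}
        else ∅)) := by
    intro p hp
    rw [mem_filter, mem_PP] at hp
    obtain ⟨h1, h2⟩ := hp
    unfold Clean at h2
    push Not at h2
    obtain ⟨o, j, ho, hj2, hjL, hr⟩ := h2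
    rw [mem_biUnion]
    refine ⟨j, mem_range.2 (by omega), ?_⟩
    rw [mem_biUnion]
    refine ⟨o, mem_range.2 (by omega), ?_⟩
    rw [dif_pos ⟨ho, hj2, hjL⟩, mem_filter]
    refine ⟨mem_PP.2 h1, ?_⟩
    rw [mem_filter]
    exact ⟨mem_PP.2 (h1.win _ _ _), hr⟩
  have hcard := card_le_card hsub
  refine (Nat.mul_le_mul_left E (hcard.trans card_biUnion_le)).trans ?_
  rw [mul_sum]
  have hj : ∀ j ∈ range (L + 1), E * #((range (n + 1)).biUnion (fun o =>
        if h : o + j ≤ n ∧ 2 ≤ j ∧ j ≤ L then
          {p ∈ PP G n | win p o j h.1 ∈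
            ({p ∈ PP G j | Rich G j (R j) (p 0) (p (Fin.last j))} : Finset (Fin (j + 1) → W))}
        else ∅)) ≤ (n + 1) * K ^ n * (Fintype.card W * d ^ n) := by
    intro j _
    refine (Nat.mul_le_mul_left E card_biUnion_le).trans ?_
    rw [mul_sum]
    have ho : ∀ o ∈ range (n + 1), E * #(if h : o + j ≤ n ∧ 2 ≤ j ∧ j ≤ L then
          ({p ∈ PP G n | win p o j h.1 ∈
            ({p ∈ PP G j | Rich G j (R j) (p 0) (p (Fin.last j))} : Finset (Fin (j + 1) → W))} :
              Finset (Fin (n + 1) → W))
        else ∅) ≤ K ^ n * (Fintype.card W * d ^ n) := by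
      intro o _
      by_cases h : o + j ≤ n ∧ 2 ≤ j ∧ j ≤ L
      · rw [dif_pos h]
        have h1 := card_window G (K * d) hΔ j
          ({p ∈ PP G j | Rich G j (R j) (p 0) (p (Fin.last j))}) n o h.1
        have h2 := hb j h.2.1 h.2.2
        calc _ ≤ E * ((K * d) ^ (n - j) *
              #{p ∈ PP G j | Rich G j (R j) (p 0) (p (Fin.last j))}) := Nat.mul_le_mul_left _ h1
          _ = (K * d) ^ (n - j) *
              (E * #{p ∈ PP G j | Rich G j (R j) (p 0) (p (Fin.last j))}) := by ring
          _ ≤ (K * d) ^ (n - j) * (Fintype.card W * d ^ j) := Nat.mul_le_mul_left _ h2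
          _ = K ^ (n - j) * (Fintype.card W * (d ^ (n - j) * d ^ j)) := by
            rw [mul_pow]; ring
          _ = K ^ (n - j) * (Fintype.card W * d ^ n) := by
            rw [← pow_add, Nat.sub_add_cancel (by omega)]
          _ ≤ K ^ n * (Fintype.card W * d ^ n) :=
            Nat.mul_le_mul_right _ (Nat.pow_le_pow_right hK (by omega))
      · rw [dif_neg h, card_empty, mul_zero]
        exact Nat.zero_le _
    refine (sum_le_card_nsmul _ _ _ ho).trans ?_
    rw [card_range, smul_eq_mul, mul_assoc]
  refine (sum_le_card_nsmul _ _ _ hj).trans ?_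
  rw [card_range, smul_eq_mul]
  apply le_of_eq
  ring

end clean

end Pool.Agent.Helper97.RE
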