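import Pool.Agent.Helper97.RE.NoRich
import Pool.Agent.Helper97.RE.Lib.Helper72_Kst

/-!
# Disjoint paths in a set of large minimum degree; many good vertices `b`
-/

set_option autoImplicit false

namespace Pool.Agent.Helper97.RE

open Finset Classical

/-- a path inside `Y` avoiding `Z` -/
theorem path_in {W : Type*} (G : SimpleGraph W) (D : ℕ) (Y : Finset W)
    (hY : ∀ y ∈ Y, D ≤ #{z ∈ Y | G.Adj y z}) (a : W) (ha : a ∈ Y) (Z : Finset W) (i : ℕ)
    (hD : #Z + i + 1 ≤ D) :
    ∃ p : Fin (i + 1) → W, IsPath G p ∧ (∀ u, p u ∈ Y) ∧ p 0 = a ∧ ∀ u, u ≠ 0 → p u ∉ Z := by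
  induction i with
  | zero =>
    refine ⟨fun _ => a, isPath_zero G _, fun _ => ha, rfl, ?_⟩
    intro u hu
    exact absurd (Fin.ext (by omega)) hu
  | succ i ih =>
    obtain ⟨p, h1, h2, h3, h4⟩ := ih (by omega)
    have h5 : ({z ∈ Y | G.Adj (p (Fin.last i)) z} \ (Z ∪ univ.image p)).Nonempty := by
      rw [← Finset.card_pos]
      have h6 := Finset.le_card_sdiff (Z ∪ univ.image p) {z ∈ Y | G.Adj (p (Fin.last i)) z}
      have h7 : #(Z ∪ univ.image p) ≤ #Z + (i + 1) := by
        refine (card_union_le _ _).trans (Nat.add_le_add_left ?_ _)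
        refine card_image_le.trans ?_
        simp
      have h8 := hY _ (h2 (Fin.last i))
      omega
    obtain ⟨v, hv⟩ := h5
    rw [mem_sdiff, mem_filter, mem_union, not_or] at hv
    obtain ⟨⟨hv1, hv2⟩, hv3, hv4⟩ := hv
    refine ⟨Fin.snoc p v, h1.snoc hv2 ?_, ?_, ?_, ?_⟩
    · intro u hu
      exact hv4 (mem_image.2 ⟨u, mem_univ _, hu⟩)
    · intro u
      refine Fin.lastCases ?_ (fun u => ?_) u
      · rw [Fin.snoc_last]; exact hv1
      · rw [Fin.snoc_castSucc]; exact h2 u
    · have : (0 : Fin (i + 1 + 1)) = (0 : Fin (i + 1)).castSucc := rfl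
      rw [this, Fin.snoc_castSucc]
      exact h3
    · intro u
      refine Fin.lastCases ?_ (fun u => ?_) u
      · intro _
        rw [Fin.snoc_last]; exact hv3
      · intro hu
        rw [Fin.snoc_castSucc]
        refine h4 u ?_
        rintro rfl
        exact hu rfl

/-- a family of paths inside `Y` starting at `a`, disjoint otherwise -/
theorem path_family {W : Type*} (G : SimpleGraph W) (D : ℕ) (Y : Finset W)
    (hY : ∀ y ∈ Y, D ≤ #{z ∈ Y | G.Adj y z}) (a : W) (ha : a ∈ Y) (i : ℕ) (n : ℕ)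
    (hD : n * (i + 1) + i + 1 ≤ D) :
    ∃ P : ℕ → Fin (i + 1) → W, (∀ l, l < n → IsPath G (P l) ∧ (∀ u, P l u ∈ Y) ∧ P l 0 = a) ∧
      ∀ l l', l < l' → l' < n → ∀ u u', u ≠ 0 → u' ≠ 0 → P l u ≠ P l' u' := by
  induction n with
  | zero => exact ⟨fun _ _ => a, fun l hl => absurd hl (Nat.not_lt_zero l),
      fun l l' _ h => absurd h (Nat.not_lt_zero l')⟩
  | succ n ih =>
    have hn : n * (i + 1) + i + 1 ≤ D := by
      have : (n + 1) * (i + 1) = n * (i + 1) + (i + 1) := by ring
      omega
    obtain ⟨P, h1, h2⟩ := ih hn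
    obtain ⟨p, p1, p2, p3, p4⟩ := path_in G D Y hY a ha
      ((range n).biUnion (fun l => univ.image (P l))) i (by
        have h3 : #((range n).biUnion (fun l => univ.image (P l))) ≤ n * (i + 1) := by
          refine (card_biUnion_le_card_mul _ _ (i + 1) ?_).trans ?_
          · intro l _
            refine card_image_le.trans ?_
            simp
          · rw [card_range]
        omega)
    refine ⟨Function.update P n p, ?_, ?_⟩
    · intro l hl
      by_cases hln : l = n
      · subst hln
        rw [Function.update_self]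
        exact ⟨p1, p2, p3⟩
      · rw [Function.update_of_ne hln]
        exact h1 l (by omega)
    · intro l l' hll hl' u u' hu hu'
      rw [Function.update_of_ne (by omega)]
      by_cases hln : l' = n
      · subst hln
        rw [Function.update_self]
        intro h
        refine p4 u' hu' ?_
        rw [mem_biUnion]
        exact ⟨l, mem_range.2 hll, mem_image.2 ⟨u, mem_univ _, h⟩⟩
      · rw [Function.update_of_ne hln]
        exact h2 l l' hll (by omega) u u' hu hu'

theorem many_good (i J K N E1 : ℕ) (hJ : 1 ≤ J) (hK : 1 ≤ K) (hE1 : 1 ≤ E1) :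
    ∃ D r0 E2 d0 : ℕ, 1 ≤ E2 ∧ ∀ r, r0 ≤ r →
    ∀ (W : Type) [Fintype W] [DecidableEq W] (G : SimpleGraph W) [DecidableRel G.Adj] (d : ℕ),
      d0 ≤ d → (∀ w, G.degree w ≤ K * d) →
      ∀ (t : W) (Y : Finset W), t ∉ Y → (∀ y ∈ Y, D ≤ #{z ∈ Y | G.Adj y z}) →
      ∀ a ∈ Y, (∀ p : Fin (i + 1) → W, IsPath G p → (∀ u, p u ∈ Y) → p 0 = a →
        d ≤ E1 * #{b ∈ G.neighborFinset t | Rich G (J + 1) r (p (Fin.last i)) b}) →
      d ≤ E2 * #{b ∈ G.neighborFinset t | Rich G (i + (J + 1)) N a b} := by
  have hn1 : 1 ≤ 2 * (N + 2) * K * E1 :=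
    Nat.one_le_iff_ne_zero.2 (Nat.mul_ne_zero (Nat.mul_ne_zero (by omega) (by omega)) (by omega))
  set n := 2 * (N + 2) * K * E1 with hn
  refine ⟨n * (i + 1) + i + 1, N + i + 1, 4 * E1, 4 * E1, by omega, ?_⟩
  intro r hr W _ _ G _ d hd hdeg t Y htY hY a ha hF
  obtain ⟨P, hP1, hP2⟩ := path_family G (n * (i + 1) + i + 1) Y (fun y hy => by convert hY y hy) a ha i n
    (le_refl _)
  have hdc := dc (range n) (G.neighborFinset t)
    (fun l b => Rich G (J + 1) r (P l (Fin.last i)) b) d K E1 (N + 2)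
    (nonempty_range_iff.2 (by omega)) (by rw [card_range]) (by
      rw [SimpleGraph.card_neighborFinset_eq_degree]; exact hdeg t) (by
      intro l hl
      have hl' := mem_range.1 hl
      exact hF (P l) (hP1 l hl').1 (hP1 l hl').2.1 (hP1 l hl').2.2)
  have hsub : ({b ∈ G.neighborFinset t | N + 2 ≤
      #{l ∈ range n | Rich G (J + 1) r (P l (Fin.last i)) b}} : Finset W) ⊆
      insert a {b ∈ G.neighborFinset t | Rich G (i + (J + 1)) N a b} := by
    intro b hb
    rw [mem_filter] at hb
    rw [mem_insert, mem_filter]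
    by_cases hab : b = a
    · left; exact hab
    right
    refine ⟨hb.1, ?_⟩
    intro Z hZ
    obtain ⟨l, hl, hlb, hlZ⟩ : ∃ l, l < n ∧ Rich G (J + 1) r (P l (Fin.last i)) b ∧
        ∀ u, u ≠ 0 → P l u ∉ insert b Z := by
      by_contra hcon
      push Not at hcon
      have hch : ∀ l ∈ ({l ∈ range n | Rich G (J + 1) r (P l (Fin.last i)) b} : Finset ℕ),
          ∃ u, u ≠ 0 ∧ P l u ∈ insert b Z := by
        intro l hl
        rw [mem_filter, mem_range] at hl
        exact hcon l hl.1 hl.2
      choose! f hf using hch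
      have hcard : #(insert b Z) < #{l ∈ range n | Rich G (J + 1) r (P l (Fin.last i)) b} := by
        have := card_insert_le b Z
        omega
      obtain ⟨l, hl, l', hl', hne, heq⟩ := Finset.exists_ne_map_eq_of_card_lt_of_maps_to hcard
        (f := fun l => P l (f l)) (fun l hl => (hf l hl).2)
      have hln := mem_range.1 (mem_filter.1 hl).1
      have hln' := mem_range.1 (mem_filter.1 hl').1
      rcases lt_or_gt_of_ne hne with h | h
      · exact hP2 l l' h hln' _ _ (hf l hl).1 (hf l' hl').1 heq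
      · exact hP2 l' l h hln _ _ (hf l' hl').1 (hf l hl).1 heq.symm
    obtain ⟨hp1, hp2, hp3⟩ := hP1 l hl
    obtain ⟨q, hq1, hq2, hq3, hq4⟩ := hlb (Z ∪ univ.image (P l)) (by
      refine (card_union_le _ _).trans ?_
      have : #(univ.image (P l)) ≤ i + 1 := by
        refine card_image_le.trans ?_
        simp
      omega)
    refine ⟨app (P l) q, hp1.app hq1 hq2.symm ?_, ?_, ?_, ?_⟩
    · intro u v hv
      by_cases hvl : v = Fin.last (J + 1)
      · subst hvl
        rw [hq3]
        by_cases hu : u = 0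
        · subst hu
          rw [hp3]
          exact fun h => hab h.symm
        · intro h
          exact hlZ u hu (h ▸ mem_insert_self _ _)
      · intro h
        refine hq4 v hv hvl ?_
        rw [← h, mem_union]
        right
        exact mem_image.2 ⟨u, mem_univ _, rfl⟩
    · rw [app_zero, hp3]
    · rw [app_last _ _ hq2.symm, hq3]
    · have := app_inner (P l) q (Z : Set W) (fun u hu h => hlZ u hu (mem_insert_of_mem h))
        (fun v hv hvl h => hq4 v hv hvl (mem_union_left _ h))
      exact this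
  have hcard := (card_le_card hsub).trans (card_insert_le _ _)
  set X := #{b ∈ G.neighborFinset t | Rich G (i + (J + 1)) N a b}
  have h1 : d ≤ 2 * E1 * (X + 1) := hdc.trans (Nat.mul_le_mul_left _ hcard)
  have h2 : 2 * E1 * (X + 1) = 2 * (E1 * X) + 2 * E1 := by ring
  have h3 : 4 * E1 * X = 4 * (E1 * X) := by ring
  rw [h3]
  omega

end Pool.Agent.Helper97.RE
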