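import Mathlib

/-!
# The rational exponent conjecture: definitions

`BG` : finite connected graphs with a proper 2-colouring using both colours.
`op k H` : the operation `O_(k+1)`: every edge of `H` is replaced by a path with `k+1` edges
(`k` new vertices), a vertex `s` is joined to all vertices of colour `false` of `H`, and a vertex
`t` to all vertices of colour `true`.
-/

set_option autoImplicit false

namespace Pool.Agent.Helper97.RE

open Finset

/-- finite connected properly 2-coloured graphs in which both colours occur -/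
structure BG where
  /-- vertices -/
  V : Type
  [fin : Fintype V]
  [dec : DecidableEq V]
  /-- the graph -/
  G : SimpleGraph V
  /-- the colouring -/
  c : V → Bool
  proper : ∀ ⦃a b : V⦄, G.Adj a b → c a ≠ c b
  conn : G.Connected
  both : ∀ t : Bool, ∃ a, c a = t

attribute [instance] BG.fin BG.dec

namespace BG

/-- the edges, oriented from colour `false` to colour `true` -/
def E (H : BG) : Type := {e : H.V × H.V // H.G.Adj e.1 e.2 ∧ H.c e.1 = false ∧ H.c e.2 = true}

noncomputable instance (H : BG) : Fintype H.E := by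
  classical
  exact inferInstanceAs (Fintype {e : H.V × H.V // H.G.Adj e.1 e.2 ∧ H.c e.1 = false ∧
    H.c e.2 = true})

instance (H : BG) : DecidableEq H.E :=
  inferInstanceAs (DecidableEq {e : H.V × H.V // H.G.Adj e.1 e.2 ∧ H.c e.1 = false ∧
    H.c e.2 = true})

/-- vertices of `op k H` -/
abbrev opV (k : ℕ) (H : BG) : Type := H.V ⊕ ((H.E × Fin k) ⊕ Bool)

/-- the `i`-th vertex of the path replacing the edge `e`, `0 ≤ i ≤ k + 1` -/
def pt {H : BG} (k : ℕ) (e : H.E) (i : ℕ) : opV k H :=
  if i = 0 then Sum.inl e.1.1 else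
    if h : i - 1 < k then Sum.inr (Sum.inl (e, ⟨i - 1, h⟩)) else Sum.inl e.1.2

/-- the vertex `s` (for `false`) or `t` (for `true`) -/
def apex {H : BG} (k : ℕ) (b : Bool) : opV k H := Sum.inr (Sum.inr b)

/-- generating relation of `op k H` -/
def opRel (k : ℕ) (H : BG) (x y : opV k H) : Prop :=
  (∃ (e : H.E) (i : ℕ), i < k + 1 ∧ x = pt k e i ∧ y = pt k e (i + 1)) ∨
    ∃ a : H.V, x = apex k (H.c a) ∧ y = Sum.inl a

/-- the graph of `op k H` -/
def opG (k : ℕ) (H : BG) : SimpleGraph (opV k H) := SimpleGraph.fromRel (opRel k H)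

/-- the colouring of `op k H` -/
def opc (k : ℕ) (H : BG) : opV k H → Bool
  | Sum.inl a => if H.c a then decide ((k + 1) % 2 = 1) else false
  | Sum.inr (Sum.inl x) => decide ((x.2.1 + 1) % 2 = 1)
  | Sum.inr (Sum.inr b) => if b then !(decide ((k + 1) % 2 = 1)) else true

end BG

/-- paths with `n` edges -/
def IsPath {W : Type*} (G : SimpleGraph W) {n : ℕ} (p : Fin (n + 1) → W) : Prop :=
  Function.Injective p ∧ ∀ i : Fin n, G.Adj (p i.castSucc) (p i.succ)

/-- `x` and `y` are joined by a path with `j` edges whose inner vertices avoid any given set of at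
most `R` vertices -/
def Rich {W : Type*} (G : SimpleGraph W) (j R : ℕ) (x y : W) : Prop :=
  ∀ Z : Finset W, Z.card ≤ R → ∃ p : Fin (j + 1) → W, IsPath G p ∧ p 0 = x ∧
    p (Fin.last j) = y ∧ ∀ i : Fin (j + 1), i ≠ 0 → i ≠ Fin.last j → p i ∉ Z

end Pool.Agent.Helper97.RE
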