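import Pool.Agent.Helper97.RE.Paths

/-!
# Absence of rich complete bipartite patterns
-/

set_option autoImplicit false

namespace Pool.Agent.Helper97.RE

/-- there are no vertices `s ≠ t` and disjoint `m`-sets `A` of neighbours of `s`, `B` of
neighbours of `t`, with all pairs `(a, b)` rich -/
def NoRich {W : Type*} (L N m : ℕ) (G : SimpleGraph W) : Prop :=
  ∀ (s t : W) (A B : Finset W), s ≠ t → (∀ a ∈ A, G.Adj s a) → (∀ b ∈ B, G.Adj t b) →
    A.card = m → B.card = m → Disjoint A B → t ∉ A → s ∉ B →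
    ∃ a ∈ A, ∃ b ∈ B, ¬ Rich G L N a b

end Pool.Agent.Helper97.RE
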