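import Pool.Agent.Helper97.RE.Lib.Helper71_StepE
import Pool.Agent.Helper97.RE.Lib.Helper90_ExistsWA
import Pool.Agent.Helper97.RE.Lib.Helper19_Gamma

/-!
# Lemma NR and the main upper bound
-/

set_option autoImplicit false

namespace Pool.Agent.Helper97.RE

open Finset Classical

/-- one step of Lemma NR -/
theorem nr_step (J L K m N E C : ℕ) (hJ : 1 ≤ J) (hJL : J + 1 ≤ L) (hK : 1 ≤ K) (hE : 1 ≤ E)
    (hC : 1 ≤ C) :
    ∃ r d0 : ℕ, ∀ (W : Type) [Fintype W] [DecidableEq W] (G : SimpleGraph W)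
      [DecidableRel G.Adj] (c : W → Bool) (d : ℕ), d0 ≤ d → (∀ a b, G.Adj a b → c a ≠ c b) →
      (∀ w, d ≤ G.degree w ∧ G.degree w ≤ K * d) → NoRich L N m G →
      ∀ Cl : (Fin (J + 1) → W) → Prop,
      (∀ x y, #{p ∈ PP G J | Cl p ∧ p 0 = x ∧ p (Fin.last J) = y} ≤ C) →
      E * #{p ∈ PP G (J + 1) |
        Cl (Fin.init p : Fin (J + 1) → W) ∧ Rich G (J + 1) r (p 0) (p (Fin.last (J + 1)))} ≤
        Fintype.card W * d ^ (J + 1) := by
  obtain ⟨E1, hE1, h1⟩ := exists_WA J K E C hJ hK hE hC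
  obtain ⟨D, r0, d0, h2⟩ := gamma_contra J L K m N E1 hJ hJL hK hE1
  obtain ⟨r1, h3⟩ := h1 D
  refine ⟨max r0 r1, max d0 1, ?_⟩
  intro W _ _ G _ c d hd hc hdeg hnr Cl hCl
  by_contra hcon
  push Not at hcon
  obtain ⟨t, W0, A', hW0, hWt, hWF, htA, hAD, hsum⟩ := h3 (max r0 r1) (le_max_right _ _) W G c d
    (le_trans (le_max_right _ _) hd) hc hdeg Cl hCl hcon
  exact h2 (max r0 r1) (le_max_left _ _) W G c d (le_trans (le_max_left _ _) hd) hc hdeg t W0 A'
    hW0 hWt hWF htA hAD hsum hnr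

/-- Lemma NR -/
theorem nr (L K m N E0 : ℕ) (hK : 1 ≤ K) (hE0 : 1 ≤ E0) : ∀ J, J ≤ L →
    ∃ (R : ℕ → ℕ) (d0 : ℕ), ∀ (W : Type) [Fintype W] [DecidableEq W] (G : SimpleGraph W)
      [DecidableRel G.Adj] (c : W → Bool) (d : ℕ), d0 ≤ d → (∀ a b, G.Adj a b → c a ≠ c b) →
      (∀ w, d ≤ G.degree w ∧ G.degree w ≤ K * d) → NoRich L N m G →
      ∀ j, 2 ≤ j → j ≤ J → (E0 * (2 * ((L + 1) * (L + 1)) * K ^ L) ^ (L - j)) *
        #{p ∈ PP G j | Rich G j (R j) (p 0) (p (Fin.last j))} ≤ Fintype.card W * d ^ j := by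
  have hF : 1 ≤ 2 * ((L + 1) * (L + 1)) * K ^ L := by
    have h1 : 1 ≤ K ^ L := Nat.one_le_pow _ _ hK
    have h2 : 1 ≤ 2 * ((L + 1) * (L + 1)) := by nlinarith
    exact Nat.one_le_iff_ne_zero.2 (Nat.mul_ne_zero (by omega) (by omega))
  set F := 2 * ((L + 1) * (L + 1)) * K ^ L with hFdef
  intro J
  induction J with
  | zero =>
    intro _
    refine ⟨fun _ => 0, 0, ?_⟩
    intro W _ _ G _ c d _ _ _ _ j h2 h0
    omega
  | succ J ih =>
    intro hJL
    obtain ⟨R, d0, hR⟩ := ih (by omega)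
    by_cases hJ : 1 ≤ J
    · have hFp : 1 ≤ F ^ (L - (J + 1)) := Nat.one_le_pow _ _ hF
      obtain ⟨r, d1, hr⟩ := nr_step J L K m N (2 * (E0 * F ^ (L - (J + 1)))) (Cb R J) hJ hJL hK
        (by nlinarith) (Cb_pos R J)
      refine ⟨Function.update R (J + 1) r, max d0 d1, ?_⟩
      intro W _ _ G _ c d hd hc hdeg hnr j hj2 hjJ
      have hold := hR W G c d (le_trans (le_max_left _ _) hd) hc hdeg hnr
      by_cases hj : j ≤ J
      · have := hold j hj2 hj
        rw [Function.update_of_ne (by omega)]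
        exact this
      · obtain rfl : j = J + 1 := by omega
        rw [Function.update_self]
        have hnew := hr W G c d (le_trans (le_max_right _ _) hd) hc hdeg hnr
          (fun p => Clean G J R p) (by
            intro x y
            have := cnt_le G J R J (le_refl J) x y
            unfold cnt at this
            exact this)
        have hun := unclean_count G J K d (E0 * F ^ (L - J)) R hK (fun w => (hdeg w).2) (by
          intro j h2 hj
          refine le_trans ?_ (hold j h2 hj)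
          refine Nat.mul_le_mul_right _ (Nat.mul_le_mul_left _ ?_)
          exact Nat.pow_le_pow_right hF (by omega)) J
        have hext := card_ext_last G (K * d) (fun w => (hdeg w).2) J
          ({p ∈ PP G J | ¬ Clean G J R p})
        have hsplit : #{p ∈ PP G (J + 1) | Rich G (J + 1) r (p 0) (p (Fin.last (J + 1)))} ≤
            #{p ∈ PP G (J + 1) | Clean G J R (Fin.init p : Fin (J + 1) → W) ∧
              Rich G (J + 1) r (p 0) (p (Fin.last (J + 1)))} +
            #{p ∈ PP G (J + 1) | (Fin.init p : Fin (J + 1) → W) ∈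
              ({p ∈ PP G J | ¬ Clean G J R p} : Finset (Fin (J + 1) → W))} := by
          refine le_trans (card_le_card ?_) (card_union_le _ _)
          intro p hp
          rw [mem_filter] at hp
          rw [mem_union, mem_filter, mem_filter]
          by_cases hcl : Clean G J R (Fin.init p : Fin (J + 1) → W)
          · left; exact ⟨hp.1, hcl, hp.2⟩
          · right
            refine ⟨hp.1, ?_⟩
            rw [mem_filter]
            exact ⟨mem_PP.2 (mem_PP.1 hp.1).init, hcl⟩
        set a := #{p ∈ PP G (J + 1) | Rich G (J + 1) r (p 0) (p (Fin.last (J + 1)))}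
        set b := #{p ∈ PP G (J + 1) | Clean G J R (Fin.init p : Fin (J + 1) → W) ∧
              Rich G (J + 1) r (p 0) (p (Fin.last (J + 1)))}
        set u := #{p ∈ PP G (J + 1) | (Fin.init p : Fin (J + 1) → W) ∈
              ({p ∈ PP G J | ¬ Clean G J R p} : Finset (Fin (J + 1) → W))}
        set v := #{p ∈ PP G J | ¬ Clean G J R p}
        set n := Fintype.card W
        set P := F ^ (L - (J + 1))
        have hFP : F ^ (L - J) = F * P := by
          rw [show L - J = (L - (J + 1)) + 1 by omega, pow_succ]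
          ring
        have hT : 1 ≤ (J + 1) * (J + 1) * K ^ (J + 1) := by
          have h1 : 1 ≤ K ^ (J + 1) := Nat.one_le_pow _ _ hK
          exact Nat.one_le_iff_ne_zero.2 (Nat.mul_ne_zero (Nat.mul_ne_zero (by omega) (by omega))
            (by omega))
        have hFT : 2 * ((J + 1) * (J + 1) * K ^ (J + 1)) ≤ F := by
          rw [hFdef]
          have h1 : K ^ (J + 1) ≤ K ^ L := Nat.pow_le_pow_right hK hJL
          have h2 : (J + 1) * (J + 1) ≤ (L + 1) * (L + 1) :=
            Nat.mul_le_mul (by omega) (by omega)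
          calc 2 * ((J + 1) * (J + 1) * K ^ (J + 1)) = 2 * ((J + 1) * (J + 1)) * K ^ (J + 1) := by
                ring
            _ ≤ 2 * ((L + 1) * (L + 1)) * K ^ L := Nat.mul_le_mul (by omega) h1
        have hu : 2 * (E0 * P) * u ≤ n * d ^ (J + 1) := by
          have h1 : ((J + 1) * (J + 1) * K ^ (J + 1)) * (2 * (E0 * P) * u) ≤
              ((J + 1) * (J + 1) * K ^ (J + 1)) * (n * d ^ (J + 1)) := by
            calc ((J + 1) * (J + 1) * K ^ (J + 1)) * (2 * (E0 * P) * u)
                = (2 * ((J + 1) * (J + 1) * K ^ (J + 1))) * ((E0 * P) * u) := by ring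
              _ ≤ F * ((E0 * P) * u) := Nat.mul_le_mul_right _ hFT
              _ ≤ F * ((E0 * P) * (K * d * v)) :=
                Nat.mul_le_mul_left _ (Nat.mul_le_mul_left _ hext)
              _ = (K * d) * ((E0 * F ^ (L - J)) * v) := by rw [hFP]; ring
              _ ≤ (K * d) * ((J + 1) * (J + 1) * K ^ J * (n * d ^ J)) :=
                Nat.mul_le_mul_left _ hun
              _ = ((J + 1) * (J + 1) * K ^ (J + 1)) * (n * d ^ (J + 1)) := by
                rw [pow_succ, pow_succ]; ring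
          exact Nat.le_of_mul_le_mul_left h1 (by omega)
        have h2 : 2 * (E0 * P * a) ≤ 2 * (n * d ^ (J + 1)) := by
          calc 2 * (E0 * P * a) ≤ 2 * (E0 * P * (b + u)) := by
                refine Nat.mul_le_mul_left _ (Nat.mul_le_mul_left _ hsplit)
            _ = 2 * (E0 * P) * b + 2 * (E0 * P) * u := by ring
            _ ≤ n * d ^ (J + 1) + n * d ^ (J + 1) := Nat.add_le_add hnew hu
            _ = 2 * (n * d ^ (J + 1)) := by ring
        omega
    · refine ⟨R, d0, ?_⟩
      intro W _ _ G _ c d _ _ _ _ j h2 h0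
      omega

/-- absence of `op k H` excludes rich patterns -/
theorem noRich_of_free (H : BG) (k : ℕ) {W : Type} [Fintype W] [DecidableEq W]
    (G : SimpleGraph W) (hfree : (BG.opG k H).Free G) :
    NoRich (k + 1) (Fintype.card (BG.opV k H)) (Fintype.card H.V) G := by
  intro s t A B hst hA hB hAm hBm hdis htA hsB
  by_contra hcon
  push Not at hcon
  apply hfree
  have eA : H.V ≃ A := Fintype.equivOfCardEq (by rw [Fintype.card_coe, hAm])
  have eB : H.V ≃ B := Fintype.equivOfCardEq (by rw [Fintype.card_coe, hBm])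
  refine opG_contained_of_rich k H G (fun a => if H.c a = true then (eB a : W) else (eA a : W))
    ?_ s t hst ?_ ?_ ?_ ?_ ?_
  · intro a b hab
    simp only at hab
    by_cases ha : H.c a = true <;> by_cases hb : H.c b = true
    · rw [if_pos ha, if_pos hb] at hab
      exact eB.injective (Subtype.ext hab)
    · rw [if_pos ha, if_neg hb] at hab
      exact absurd (hab ▸ (eB a).2) (Finset.disjoint_left.1 hdis (eA b).2)
    · rw [if_neg ha, if_pos hb] at hab
      exact absurd (hab ▸ (eB b).2) (Finset.disjoint_left.1 hdis (eA a).2)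
    · rw [if_neg ha, if_neg hb] at hab
      exact eA.injective (Subtype.ext hab)
  · intro a
    split_ifs
    · intro h
      exact hsB (h ▸ (eB a).2)
    · intro h
      exact G.ne_of_adj (hA _ (eA a).2) h.symm
  · intro a
    split_ifs
    · intro h
      exact G.ne_of_adj (hB _ (eB a).2) h.symm
    · intro h
      exact htA (h ▸ (eA a).2)
  · intro a ha
    rw [if_neg (by rw [ha]; exact Bool.false_ne_true)]
    exact hA _ (eA a).2
  · intro a ha
    rw [if_pos ha]
    exact hB _ (eB a).2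
  · intro e
    have h1 := e.2.2.1
    have h2 := e.2.2.2
    rw [if_neg (by rw [h1]; exact Bool.false_ne_true), if_pos h2]
    exact hcon _ (eA _).2 _ (eB _).2

theorem upper_main (H : BG) (k : ℕ) (x : ℝ) (hx : 0 ≤ x) (hx1 : x ≤ 1)
    (hex : ∃ C : ℝ, ∀ n : ℕ, (SimpleGraph.extremalNumber n H.G : ℝ) ≤ C * (n : ℝ) ^ (1 + x))
    (K : ℕ) : ∃ B : ℝ, ∀ (W : Type) [Fintype W] [DecidableEq W] (G : SimpleGraph W)
      [DecidableRel G.Adj] (c : W → Bool) (d : ℕ), Nonempty W → (BG.opG k H).Free G →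
      (∀ a b, G.Adj a b → c a ≠ c b) → (∀ w, d ≤ G.degree w ∧ G.degree w ≤ K * d) →
      (d : ℝ) < B * (Fintype.card W : ℝ) ^ (1 / ((k : ℝ) + 2 - x)) := by
  obtain ⟨R, d0, hR⟩ := nr (k + 1) (K + 1) (Fintype.card H.V) (Fintype.card (BG.opV k H))
    ((k + 1 + 1) * (k + 3 + 1) * (K + 1) ^ (k + 3) * 2 ^ (k + 4)) (by omega)
    (Nat.one_le_iff_ne_zero.2 (by positivity)) (k + 1) (le_refl _)
  obtain ⟨B, hB⟩ := stepE H k (K + 1) (2 ^ (k + 4)) x hx hx1 hex R
  refine ⟨max B (d0 + 2 * (k + 3) + 1), ?_⟩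
  intro W _ _ G _ c d hne hfree hc hdeg
  have hcard : (1 : ℝ) ≤ (Fintype.card W : ℝ) := by
    have : 0 < Fintype.card W := Fintype.card_pos
    exact_mod_cast this
  have hk : (0 : ℝ) ≤ k := Nat.cast_nonneg k
  have hy : 0 ≤ 1 / ((k : ℝ) + 2 - x) := by
    apply one_div_nonneg.2
    linarith
  have hpow : (1 : ℝ) ≤ (Fintype.card W : ℝ) ^ (1 / ((k : ℝ) + 2 - x)) :=
    Real.one_le_rpow hcard hy
  have hpow0 : (0 : ℝ) ≤ (Fintype.card W : ℝ) ^ (1 / ((k : ℝ) + 2 - x)) := by linarith
  by_cases hd : d0 + 2 * (k + 3) ≤ d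
  · have hdeg' : ∀ w, d ≤ G.degree w ∧ G.degree w ≤ (K + 1) * d := by
      intro w
      refine ⟨(hdeg w).1, (hdeg w).2.trans (Nat.mul_le_mul_right _ (by omega))⟩
    have hnr := hR W G c d (by omega) hc hdeg' (noRich_of_free H k G hfree)
    have hun := unclean_count G (k + 1) (K + 1) d
      ((k + 1 + 1) * (k + 3 + 1) * (K + 1) ^ (k + 3) * 2 ^ (k + 4)) R (by omega)
      (fun w => (hdeg' w).2) (by
        intro j h2 hj
        refine le_trans ?_ (hnr j h2 hj)
        refine Nat.mul_le_mul_right _ ?_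
        refine Nat.le_mul_of_pos_right _ ?_
        positivity) (k + 3)
    have hlow := card_PP_lower G d (fun w => (hdeg w).1) (k + 3) (k + 3) (le_refl _)
    have hclean : Fintype.card W * d ^ (k + 3) ≤
        2 ^ (k + 4) * #{p ∈ PP G (k + 3) | Clean G (k + 1) R p} := by
      have hsum : #{p ∈ PP G (k + 3) | Clean G (k + 1) R p} +
          #{p ∈ PP G (k + 3) | ¬ Clean G (k + 1) R p} = #(PP G (k + 3)) :=
        Finset.card_filter_add_card_filter_not _
      set a := #{p ∈ PP G (k + 3) | Clean G (k + 1) R p}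
      set b := #{p ∈ PP G (k + 3) | ¬ Clean G (k + 1) R p}
      set n := Fintype.card W
      have h1 : 2 ^ (k + 4) * b ≤ n * d ^ (k + 3) := by
        have h2 : ((k + 1 + 1) * (k + 3 + 1) * (K + 1) ^ (k + 3)) * (2 ^ (k + 4) * b) ≤
            ((k + 1 + 1) * (k + 3 + 1) * (K + 1) ^ (k + 3)) * (n * d ^ (k + 3)) := by
          calc _ = ((k + 1 + 1) * (k + 3 + 1) * (K + 1) ^ (k + 3) * 2 ^ (k + 4)) * b := by ring
            _ ≤ _ := hun
        exact Nat.le_of_mul_le_mul_left h2 (by positivity)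
      have h3 : 2 * (n * d ^ (k + 3)) ≤ 2 ^ (k + 4) * #(PP G (k + 3)) := by
        calc 2 * (n * d ^ (k + 3)) ≤ 2 * (n * (2 * (d - (k + 3))) ^ (k + 3)) := by
              refine Nat.mul_le_mul_left _ (Nat.mul_le_mul_left _ ?_)
              exact Nat.pow_le_pow_left (by omega) _
          _ = 2 ^ (k + 4) * (n * (d - (k + 3)) ^ (k + 3)) := by
              rw [mul_pow, show k + 4 = (k + 3) + 1 by omega, pow_succ 2 (k + 3)]
              ring
          _ ≤ _ := Nat.mul_le_mul_left _ hlow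
      rw [← hsum, Nat.mul_add] at h3
      omega
    have h := hB W G d (by omega) hne hfree (fun w => (hdeg' w).2) hclean
    exact lt_of_lt_of_le h (mul_le_mul_of_nonneg_right (le_max_left _ _) hpow0)
  · push Not at hd
    have h1 : (d : ℝ) < d0 + 2 * (k + 3) + 1 := by
      have : (d : ℝ) < ((d0 + 2 * (k + 3) : ℕ) : ℝ) := by exact_mod_cast hd
      push_cast at this
      linarith
    calc (d : ℝ) < d0 + 2 * (k + 3) + 1 := h1
      _ ≤ max B (d0 + 2 * (k + 3) + 1) := le_max_right _ _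
      _ ≤ _ := le_mul_of_one_le_right (le_trans (by positivity) (le_max_right _ _)) hpow

end Pool.Agent.Helper97.RE
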